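import Pool.Agent.Helper63.NL.Det0
import Pool.Agent.Helper56.NL.Stm2

/-! NL package DET (helper56's project on MP_60829e_nt). -/

set_option autoImplicit false

namespace Pool.Agent.Helper63.NL

theorem s_DET : Pool.Agent.Helper56.NL.S_DET := fun _ _ _ f => det f

end Pool.Agent.Helper63.NL
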