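import Mathlib

/-! NL package DET (helper56's project on MP_60829e_nt): every polynomial is the determinant of a matrix
with entries of degree at most one. Pure Mathlib. -/

set_option autoImplicit false

namespace Pool.Agent.Helper63.NL

open Matrix

variable {k : Type} [Field k] {n : ℕ}

/-- a linear representation of `f`: `f = u ⬝ᵥ w` with `T *ᵥ w = v`, `det T = 1`, `T, u, v` of degree at most one -/
def Rep (f : MvPolynomial (Fin n) k) : Prop :=
  ∃ (ι : Type) (_ : Fintype ι) (_ : DecidableEq ι) (T : Matrix ι ι (MvPolynomial (Fin n) k))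
    (u v w : ι → MvPolynomial (Fin n) k),
    T.det = 1 ∧ T *ᵥ w = v ∧ u ⬝ᵥ w = f ∧ (∀ i j, (T i j).totalDegree ≤ 1) ∧
    (∀ i, (u i).totalDegree ≤ 1) ∧ (∀ i, (v i).totalDegree ≤ 1)

theorem rep_C (c : k) : Rep (MvPolynomial.C c : MvPolynomial (Fin n) k) := by
  refine ⟨Unit, inferInstance, inferInstance, 1, fun _ => MvPolynomial.C c, fun _ => 1, fun _ => 1,
    ?_, ?_, ?_, ?_, ?_, ?_⟩
  · simp
  · simp
  · simp [dotProduct]
  · intro i j
    rcases i with ⟨⟩
    rcases j with ⟨⟩
    simp
  · intro i; simp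
  · intro i; simp

theorem rep_add {f g : MvPolynomial (Fin n) k} (hf : Rep f) (hg : Rep g) : Rep (f + g) := by
  obtain ⟨ι, _, _, T, u, v, w, h1, h2, h3, h4, h5, h6⟩ := hf
  obtain ⟨ι', _, _, T', u', v', w', h1', h2', h3', h4', h5', h6'⟩ := hg
  refine ⟨ι ⊕ ι', inferInstance, inferInstance, fromBlocks T 0 0 T', Sum.elim u u', Sum.elim v v',
    Sum.elim w w', ?_, ?_, ?_, ?_, ?_, ?_⟩
  · rw [det_fromBlocks_zero₂₁, h1, h1', one_mul]
  · rw [fromBlocks_mulVec]
    simp [h2, h2', Function.comp_def]
  · simp [dotProduct] at *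
    rw [h3, h3']
  · rintro (i | i) (j | j)
    · exact h4 i j
    · simp
    · simp
    · exact h4' i j
  · rintro (i | i)
    · exact h5 i
    · exact h5' i
  · rintro (i | i)
    · exact h6 i
    · exact h6' i

theorem rep_mul_X {f : MvPolynomial (Fin n) k} (m : Fin n) (hf : Rep f) :
    Rep (f * MvPolynomial.X m) := by
  obtain ⟨ι, _, _, T, u, v, w, h1, h2, h3, h4, h5, h6⟩ := hf
  refine ⟨ι ⊕ Unit, inferInstance, inferInstance,
    fromBlocks T (Matrix.of fun i _ => - v i) 0 1, Sum.elim u 0,
    Sum.elim 0 (fun _ => MvPolynomial.X m),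
    Sum.elim (fun i => w i * MvPolynomial.X m) (fun _ => MvPolynomial.X m), ?_, ?_, ?_, ?_, ?_, ?_⟩
  · rw [det_fromBlocks_zero₂₁, h1, det_one, one_mul]
  · rw [fromBlocks_mulVec]
    have : T *ᵥ (fun i => w i * MvPolynomial.X m) = fun i => v i * MvPolynomial.X m := by
      funext i
      have h7 := congrFun h2 i
      simp only [mulVec, dotProduct] at h7 ⊢
      rw [← h7, Finset.sum_mul]
      simp only [mul_assoc]
    ext i
    rcases i with i | i
    · simp only [Function.comp_def, Sum.elim_inl, Sum.elim_inr, Pi.add_apply, this]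
      simp [mulVec, dotProduct]
    · simp [Function.comp_def]
  · rw [← h3]
    simp [dotProduct, Finset.sum_mul, mul_assoc]
  · rintro (i | i) (j | j)
    · exact h4 i j
    · simpa using h6 i
    · simp
    · rcases i with ⟨⟩
      rcases j with ⟨⟩
      simp
  · rintro (i | i)
    · exact h5 i
    · simp
  · rintro (i | i)
    · simp
    · exact (MvPolynomial.totalDegree_X (R := k) m).le

theorem rep_all (f : MvPolynomial (Fin n) k) : Rep f :=
  MvPolynomial.induction_on f rep_C (fun _ _ => rep_add) (fun _ m hf => rep_mul_X m hf)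

theorem det (f : MvPolynomial (Fin n) k) :
    ∃ (N : ℕ) (A : Matrix (Fin N) (Fin N) (MvPolynomial (Fin n) k)),
      (∀ i j, (A i j).totalDegree ≤ 1) ∧ A.det = f := by
  obtain ⟨ι, _, _, T, u, v, w, h1, h2, h3, h4, h5, h6⟩ := rep_all f
  let A : Matrix (ι ⊕ Unit) (ι ⊕ Unit) (MvPolynomial (Fin n) k) :=
    fromBlocks T (Matrix.of fun i _ => v i) (Matrix.of fun _ j => - u j) 0
  have hA : A.det = f := by
    let B : Matrix (ι ⊕ Unit) (ι ⊕ Unit) (MvPolynomial (Fin n) k) :=
      fromBlocks 1 (Matrix.of fun i _ => - w i) 0 1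
    have hB : B.det = 1 := by
      simp only [B]
      rw [det_fromBlocks_zero₂₁, det_one, det_one, one_mul]
    have hAB : A * B = fromBlocks T 0 (Matrix.of fun _ j => - u j) (Matrix.of fun _ _ => f) := by
      simp only [A, B]
      rw [fromBlocks_multiply]
      congr 1
      · simp
      · ext i j : 2
        have := congrFun h2 i
        simp only [mulVec, dotProduct] at this
        simp [Matrix.mul_apply, this]
      · simp
      · ext i j : 2
        simp only [dotProduct] at h3
        simp [Matrix.mul_apply, h3]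
    have := congrArg Matrix.det hAB
    rw [det_mul, hB, mul_one, det_fromBlocks_zero₁₂, h1, one_mul] at this
    rw [this]
    simp
  let e := Fintype.equivFin (ι ⊕ Unit)
  refine ⟨Fintype.card (ι ⊕ Unit), A.submatrix e.symm e.symm, ?_, ?_⟩
  · intro i j
    rw [submatrix_apply]
    generalize e.symm i = a
    generalize e.symm j = b
    rcases a with a | a <;> rcases b with b | b
    · exact h4 a b
    · exact h6 a
    · simpa [A] using h5 b
    · simp [A]
  · rw [det_submatrix_equiv_self, hA]

end Pool.Agent.Helper63.NL
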